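import Pool.Agent.H494R3.GT.Spec

set_option autoImplicit false

/-!
# A box space with geometric property (T) whose Laplacian admits no sum-of-squares certificate

The blocks are Cayley graphs of finite groups generated by three copies of `ZMod 5`, any two of
which generate a Heisenberg type group, to which one adds the edges of a long path visiting a very
sparse set of vertices. The extra path does not destroy the spectral gap in any representation,
but the position function along the path is a locally defined additive cocycle which gives a
functional that is nonnegative on squares of bounded propagation and negative on `Δ² - cΔ`.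
-/

open Pool.Agent.H494R3.GT in
/-- There is a box space `X` of connected graphs with geometric property (T) such that
`Δ² - cΔ` is a sum of squares in the algebraic Roe algebra for no `c > 0`. -/
theorem Pool.Agent.Results.MP_99d66e_al.SosFails.result :
    ∃ (X : BoxSpace) (D : X.Roe),
      (∀ i, (X.G i).Connected) ∧ X.IsLaplacian D ∧ X.GeometricT D ∧
      ¬ ∃ c : ℝ, 0 < c ∧ X.IsSOS (D * D - (c : ℂ) • D) :=
  ⟨BX, Dx, BX_connected, Dx_isLaplacian, geomT, fun ⟨_, hc, h⟩ => not_sos hc h⟩
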